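import Mathlib
import Pool.Agent.H843R3.Had2.Final

set_option autoImplicit false

/-!
# MP_eba1ef_gt: centrally symmetric convex bodies invariant under the permutations of a basis

Let `K = -K` be a convex body in `ℝ^n`, `n ≥ 2`, such that for some basis `b` of `ℝ^n` every
permutation of the basis vectors maps `K` into itself (for the standard basis: `K` is invariant
under all permutations of the coordinates; no invariance under changes of signs is assumed).
Then `K` is covered by `2 ^ n` translates of its interior, as conjectured by Levi, Hadwiger,
Gohberg and Markus.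

The proof. Fix a coordinate `z`, let `α` be the set of the other coordinates, and let `m = n - 1`.
For `x` in `K` let `h` be the sum of the coordinates and `A = x z - h / n`. The image `Q` of `K`
under `(A, h)` is a planar convex body, and it is also the intersection of `K` with the plane of
the vectors constant on `α` (average over the permutations of `α`). For `x` in `K`, not
constant, there is a set `T` of coordinates in `α` which are larger than the other ones in `α`,
and such that `x z` lies weakly between; here `T` is empty (all of `α`) only if `z` is the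
unique largest (smallest) coordinate. From a point with `x a > x b` one can move a little in the
direction `e b - e a` inside `K`. Therefore from `x` one can move inside `K` in each
direction which is negative on `T`, positive on `α \ T`, zero at `z` and has sum zero.
So, if `y` in `int K` is constant on `α`, then `x` is illuminated by a large multiple of a fixed such
direction `u T`, plus the difference of the shadows of `y` and `x`; hence, it suffices to
illuminate, in the plane, the shadows of all points of type `T` by two directions. The shadow
`(A, h)` of such a point has the property that `(- κ * A, h)` for `A ≥ 0`, and `(- κ' * A, h)` for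
`A ≤ 0`, belongs to `Q`, where `κ * κ' > 1` (compare the sum of the deviations from the
mean `h / n`). A planar lemma shows that two directions are enough, unless `h` takes its
maximum at only one point of `Q`. In this exceptional case the caps near this point and its
negative are illuminated by two opposite directions, and the rest of `K` by the others. In total
there are `2 * 2 ^ m = 2 ^ n` directions.
-/

namespace Pool.Agent.Results.MP_eba1ef_gt.PermutationSymmetric

open Pool.Agent.H843R3.Had2

/-- **Main theorem.** -/
theorem result (n : ℕ) (hn : 2 ≤ n) (K : Set (EuclideanSpace ℝ (Fin n)))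
    (hK : Convex ℝ K) (hKc : IsCompact K) (hKi : (interior K).Nonempty)
    (hneg : ∀ x ∈ K, -x ∈ K)
    (b : Module.Basis (Fin n) ℝ (EuclideanSpace ℝ (Fin n)))
    (hperm : ∀ σ : Equiv.Perm (Fin n), ∀ x ∈ K, ∑ i, b.repr x i • b (σ i) ∈ K) :
    ∃ T : Finset (EuclideanSpace ℝ (Fin n)), T.card ≤ 2 ^ n ∧
      K ⊆ ⋃ t ∈ T, (fun x => t + x) '' interior K := by
  classical
  obtain ⟨d, rfl⟩ : ∃ d, n = d + 1 := ⟨n - 1, by omega⟩
  set e : Option (Fin d) ≃ Fin (d + 1) := (finSuccEquiv d).symm with he
  set b' : Module.Basis (Option (Fin d)) ℝ (EuclideanSpace ℝ (Fin (d + 1))) :=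
    b.reindex e.symm with hb'
  set Φ : (Option (Fin d) → ℝ) ≃L[ℝ] EuclideanSpace ℝ (Fin (d + 1)) :=
    b'.equivFun.symm.toContinuousLinearEquiv with hΦ
  have hΦx : ∀ x, Φ x = ∑ i, x i • b' i := by
    intro x
    rw [hΦ]
    simp only [LinearEquiv.coe_toContinuousLinearEquiv']
    exact b'.equivFun_symm_apply x
  have hb'i : ∀ i, b' i = b (e i) := by
    intro i
    rw [hb', Module.Basis.reindex_apply, Equiv.symm_symm]
  have hpre : Φ ⁻¹' K = Φ.toHomeomorph ⁻¹' K := rfl
  have hbody : Body (Φ ⁻¹' K) := by
    refine ⟨?_, ?_, ?_, ?_, ?_, ?_⟩
    · exact hK.linear_preimage Φ.toLinearEquiv.toLinearMap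
    · rw [hpre, ← Homeomorph.image_symm]
      exact hKc.image (Homeomorph.continuous _)
    · obtain ⟨y, hy⟩ := hKi
      refine ⟨Φ.symm y, ?_⟩
      rw [hpre, ← Homeomorph.preimage_interior]
      show Φ (Φ.symm y) ∈ interior K
      rwa [ContinuousLinearEquiv.apply_symm_apply]
    · intro x hx
      show Φ (-x) ∈ K
      rw [map_neg]
      exact hneg _ hx
    · intro σ x hx
      show Φ (fun i => x (σ i)) ∈ K
      have h1 := hperm (e.permCongr σ⁻¹) (Φ x) hx
      have h2 : ∀ i, b.repr (Φ x) (e i) = x i := by
        intro i
        have h3 : b'.repr (Φ x) i = x i := by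
          have h4 : b'.equivFun (Φ x) = x := b'.equivFun.apply_symm_apply x
          have h5 := congrFun h4 i
          rwa [Module.Basis.equivFun_apply] at h5
        rw [← h3, hb', Module.Basis.repr_reindex_apply, Equiv.symm_symm]
      rw [← Equiv.sum_comp e] at h1
      rw [hΦx, ← Equiv.sum_comp σ⁻¹]
      convert h1 using 2 with i
      rw [h2, hb'i]
      simp [Equiv.permCongr_apply]
    · rw [Fintype.card_fin]
      omega
  obtain ⟨v, hv⟩ := hbody.cover
  refine ⟨Finset.univ.image (fun j => Φ (v j)), ?_, ?_⟩
  · refine Finset.card_image_le.trans ?_
    rw [Finset.card_univ, Fintype.card_prod, Fintype.card_finset, Fintype.card_fin,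
      Fintype.card_bool, pow_succ]
  · intro x hx
    obtain ⟨j, hj⟩ := hv (Φ.symm x) (by
      show Φ (Φ.symm x) ∈ K
      rwa [ContinuousLinearEquiv.apply_symm_apply])
    rw [hpre, ← Homeomorph.preimage_interior] at hj
    have h4 : Φ (Φ.symm x - v j) ∈ interior K := hj
    rw [map_sub, ContinuousLinearEquiv.apply_symm_apply] at h4
    simp only [Set.mem_iUnion]
    refine ⟨Φ (v j), Finset.mem_image_of_mem _ (Finset.mem_univ _), x - Φ (v j), h4, ?_⟩
    simp

end Pool.Agent.Results.MP_eba1ef_gt.PermutationSymmetric
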