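import Pool.Agent.H665R3.LamFinal

set_option autoImplicit false

/-!
# MP_eba1ef_gt: covering laminar sums of convex bodies by translates of the interior

Let `C_j` be convex bodies in `ℝ^(d_j)`, `j = 1, …, k`, with `0` in the interior, and let `g_j` be
the gauge (Minkowski functional) of `C_j`.  For a convex set `M` in `ℝ^k` put
`K = {x : (g_1 (x_1), …, g_k (x_k)) ∈ M}`; if `M` is the unit ball of an unconditional norm this is
the unit ball of the corresponding sum.  Bounds `c(K) ≤ ∏ c(C_j)` for all unconditional `M` would
contain the conjecture for all bodies symmetric with respect to the coordinate hyperplanes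
(`C_j = [-1, 1]`), which is open in high dimension.  Here the bound is proved if `M` is the
intersection of sets `M_A`, where `A` runs through a laminar family of blocks of coordinates (any
two blocks are nested or disjoint), `M_A` is a cylinder over `ℝ^A`, arbitrary if `A` has at most two
elements, and strictly solid if `A` has at least three elements.

In particular this covers: all sums of two bodies with respect to an arbitrary unconditional norm
of the plane; the products; and the intersections of a product of the bodies `b_j C_j` with the unit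
ball of a sum with respect to any strictly monotone norm, for instance an `ℓ_p`-sum with `p < ∞`.  If
all `C_j` satisfy the conjecture (`N_j = 2^(d_j)`), then `K` satisfies the conjecture.

Proof: let `v_c`, `c < N_j`, be the translation vectors of `C_j`; a tuple of indices gives a sign
pattern `σ` on the set of the coordinates (is the index `0` or not?).  Order the coordinates such
that all blocks are intervals.  The top `t` of the block `A` is the last element of the first run of
`σ` on `A`.  We move in the directions `(a_j v_(c_j))_j` where `a_j` is a power of a small `δ`, the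
smaller the exponent the larger the largest block with top `j`.  The combinatorial lemma: any sign
pattern on the set `S` of the coordinates with `g_j (x_j) ≥ η` can be extended such that the top of
each block meeting `S` is in `S`; so the gain at the top beats the loss at the coordinates
outside of `S`.
-/

namespace Pool.Agent.Results.MP_eba1ef_gt.LaminarSums

open Pool.Agent.H665R3

/-- `M` is solid in the coordinates of `A`: if `x ∈ M` and `y i` lies between `0` and `x i` for all
`i ∈ A`, then `y ∈ M`.  (So `M` is a cylinder over `ℝ^A`.) -/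
def Solid {k : ℕ} (A : Finset (Fin k)) (M : Set (Fin k → ℝ)) : Prop :=
  ∀ x ∈ M, ∀ y : Fin k → ℝ, (∀ i ∈ A, y i ∈ Set.uIcc 0 (x i)) → y ∈ M

/-- `M` is strictly solid in the coordinates of `A`: if `x ∈ M`, if `y i` lies between `0` and `x i`
for all `i ∈ A`, and `y i ≠ x i` for some `i ∈ A`, then `y` is in the interior of `M`. -/
def StrictlySolid {k : ℕ} (A : Finset (Fin k)) (M : Set (Fin k → ℝ)) : Prop :=
  ∀ x ∈ M, ∀ y : Fin k → ℝ, (∀ i ∈ A, y i ∈ Set.uIcc 0 (x i)) → (∃ i ∈ A, y i ≠ x i) →
    y ∈ interior M

/-- Let `C j ⊆ ℝ^(d j)`, `j < k`, be convex bodies with `0` in the interior, covered by at most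
`N j` translates of their interiors, `N j ≥ 2`.  Let `𝒜` be a laminar family of nonempty subsets of
`{0, …, k - 1}`, and for `A ∈ 𝒜` let `M A ⊆ ℝ^k` be a closed convex neighbourhood of `0` which is
solid in the coordinates of `A`, and strictly solid in them if `A` has at least three elements. If
the set `K` of the `x` such that the vector of the gauges `g_j (x_j)` is in `M A` for all `A ∈ 𝒜` is
bounded, then `K` is a convex body and it is covered by at most `∏ N j` translates of its
interior. -/
theorem result (k : ℕ) (d : Fin k → ℕ) (C : ∀ j, Set (EuclideanSpace ℝ (Fin (d j))))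
    (hC : ∀ j, Convex ℝ (C j)) (hCk : ∀ j, IsCompact (C j)) (hC0 : ∀ j, 0 ∈ interior (C j))
    (N : Fin k → ℕ) (hN : ∀ j, 2 ≤ N j)
    (hcov : ∀ j, ∃ T : Finset (EuclideanSpace ℝ (Fin (d j))), T.card ≤ N j ∧
      C j ⊆ ⋃ t ∈ T, (fun x => t + x) '' interior (C j))
    (𝒜 : Finset (Finset (Fin k))) (hne : ∀ A ∈ 𝒜, A.Nonempty)
    (hlam : ∀ A ∈ 𝒜, ∀ B ∈ 𝒜, A ⊆ B ∨ B ⊆ A ∨ Disjoint A B)
    (M : Finset (Fin k) → Set (Fin k → ℝ))
    (hM : ∀ A ∈ 𝒜, IsClosed (M A) ∧ Convex ℝ (M A) ∧ 0 ∈ interior (M A) ∧ Solid A (M A))
    (hM3 : ∀ A ∈ 𝒜, 3 ≤ A.card → StrictlySolid A (M A))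
    (K : Set (∀ j, EuclideanSpace ℝ (Fin (d j))))
    (hK : K = {x | ∀ A ∈ 𝒜, (fun j => gauge (C j) (x j)) ∈ M A})
    (hKb : Bornology.IsBounded K) :
    Convex ℝ K ∧ IsCompact K ∧ 0 ∈ interior K ∧
    ∃ T : Finset (∀ j, EuclideanSpace ℝ (Fin (d j))), T.card ≤ ∏ j, N j ∧
      K ⊆ ⋃ t ∈ T, (fun x => t + x) '' interior K :=
  Lam.final C hC hCk hC0 N hN hcov 𝒜 hne hlam M (fun A hA => (hM A hA).2.1)
    (fun A hA => (hM A hA).1) (fun A hA => (hM A hA).2.2.1) (fun A hA => (hM A hA).2.2.2)
    hM3 K hK hKb

end Pool.Agent.Results.MP_eba1ef_gt.LaminarSums
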