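import Mathlib
import Pool.Agent.H2R2.Frac.Primal
import Pool.Agent.Results.MP_eba1ef_gt.AllConvexBodies

set_option autoImplicit false

/-!
# MP_eba1ef_gt: the asymptotic form of the covering conjecture

Let `c(K)` be the least number of translates of the interior of `K` that cover `K`.

* For every convex body `K` in `ℝ^d` the numbers `c(Kⁿ)^(1/n)` converge to their infimum `M`, and
  `M ≤ 2^d`, with equality if and only if `K` is a parallelotope.
* If `K` is not a parallelotope then there is a constant `C` such that `c(L × Kⁿ) < 2^(m + dn)` for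
  every `m ≥ 2`, every convex body `L` in `ℝ^m` and every `n ≥ C log m`.
-/

namespace Pool.Agent.Results.MP_eba1ef_gt.PowersAndProducts

open Filter Topology Set MeasureTheory
open scoped Pointwise

/-- `c(K)`: the least number of translates of the interior of `K` that cover `K`. -/
noncomputable def covNum {E : Type*} [AddCommGroup E] [TopologicalSpace E] (K : Set E) : ℕ :=
  sInf {k : ℕ | ∃ T : Finset E, T.card = k ∧ K ⊆ ⋃ t ∈ T, (fun x => t + x) '' interior K}

/-- The power `Kⁿ`. -/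
def power {E : Type*} (K : Set E) (n : ℕ) : Set (Fin n → E) := {x | ∀ i, x i ∈ K}

/-- Parallelotopes. -/
def IsParallelotope {d : ℕ} (K : Set (EuclideanSpace ℝ (Fin d))) : Prop :=
  ∃ (p : EuclideanSpace ℝ (Fin d)) (v : Fin d → EuclideanSpace ℝ (Fin d)),
    LinearIndependent ℝ v ∧
    K = {x | ∃ a : Fin d → ℝ, (∀ i, 0 ≤ a i ∧ a i ≤ 1) ∧ x = p + ∑ i, a i • v i}

variable {d : ℕ}

/-- the total weights of fractional coverings of `K` by translates of `interior K` -/
def openCov (K : Set (EuclideanSpace ℝ (Fin d))) : Set ℝ :=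
  {W : ℝ | ∃ (T : Finset (EuclideanSpace ℝ (Fin d))) (w : EuclideanSpace ℝ (Fin d) → ℝ),
    (∀ t ∈ T, 0 ≤ w t) ∧ W = ∑ t ∈ T, w t ∧
    ∀ x ∈ K, 1 ≤ ∑ t ∈ T, (interior K).indicator (fun _ => w t) (x - t)}

theorem openCov_one_le {K : Set (EuclideanSpace ℝ (Fin d))} (hne : K.Nonempty) {W : ℝ}
    (h : W ∈ openCov K) : 1 ≤ W := by
  obtain ⟨T, w, hw, rfl, hcov⟩ := h
  obtain ⟨x, hx⟩ := hne
  refine (hcov x hx).trans (Finset.sum_le_sum fun t ht => ?_)
  by_cases h : x - t ∈ interior K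
  · rw [Set.indicator_of_mem h]
  · rw [Set.indicator_of_notMem h]; exact hw t ht

theorem power_eq_pi {E : Type*} (K : Set E) (n : ℕ) :
    power K n = Set.pi Set.univ (fun _ : Fin n => K) := by
  ext x
  simp [power]

theorem interior_power {E : Type*} [TopologicalSpace E] (K : Set E) (n : ℕ) :
    interior (power K n) = Set.pi Set.univ (fun _ : Fin n => interior K) := by
  rw [power_eq_pi, interior_pi_set Set.finite_univ]

/-- Upper bound for the powers. -/
theorem pow_cover {K : Set (EuclideanSpace ℝ (Fin d))} (hne : K.Nonempty) {W : ℝ}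
    (h : W ∈ openCov K) :
    ∃ C : ℝ, 0 ≤ C ∧ ∀ n : ℕ, ∃ Y : Finset (Fin n → EuclideanSpace ℝ (Fin d)),
      power K n ⊆ ⋃ t ∈ Y, (fun x => t + x) '' interior (power K n) ∧
      (Y.card : ℝ) ≤ 1 + C * n * W ^ n := by
  classical
  have hW1 := openCov_one_le hne h
  have hW0 : 0 < W := by linarith
  obtain ⟨T, w, hw, rfl, hcov⟩ := h
  set W := ∑ t ∈ T, w t with hW
  let F : Finset (Finset (EuclideanSpace ℝ (Fin d))) :=
    T.powerset.filter (fun A => 1 ≤ ∑ t ∈ A, w t)
  -- the type of a point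
  have htype : ∀ x ∈ K, T.filter (fun t => x - t ∈ interior K) ∈ F := by
    intro x hx
    refine Finset.mem_filter.mpr ⟨Finset.mem_powerset.mpr (Finset.filter_subset _ _), ?_⟩
    refine (hcov x hx).trans (le_of_eq ?_)
    rw [Finset.sum_filter]
    refine Finset.sum_congr rfl fun t _ => ?_
    by_cases ht : x - t ∈ interior K
    · rw [Set.indicator_of_mem ht, if_pos ht]
    · rw [Set.indicator_of_notMem ht, if_neg ht]
  have hFne : 1 ≤ F.card := by
    obtain ⟨x, hx⟩ := hne
    exact Finset.card_pos.mpr ⟨_, htype x hx⟩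
  have hF1 : (1 : ℝ) ≤ F.card := by exact_mod_cast hFne
  refine ⟨Real.log F.card, Real.log_nonneg hF1, fun n => ?_⟩
  have hθ0 : (0 : ℝ) < (1 / W) ^ n := by positivity
  obtain ⟨Y, hYc, hY⟩ := Pool.Agent.H815R2.Had.greedy_cover (S := Fin n → F)
    (E := Fin n → EuclideanSpace ℝ (Fin d))
    (fun y s => ∀ i, y i ∈ ((s i : F) : Finset (EuclideanSpace ℝ (Fin d)))) ((1 / W) ^ n) hθ0
    (pow_le_one₀ (by positivity) (by rw [div_le_one hW0]; exact hW1))
    (by
      intro A hA
      let f : (Fin n → EuclideanSpace ℝ (Fin d)) → ℕ := fun y =>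
        (A.filter (fun s => ∀ i, y i ∈ ((s i : F) : Finset (EuclideanSpace ℝ (Fin d))))).card
      have hTne : (Fintype.piFinset (fun _ : Fin n => T)).Nonempty := by
        rw [Fintype.piFinset_nonempty]
        intro i
        by_contra hcon
        rw [Finset.not_nonempty_iff_eq_empty] at hcon
        rw [hW, hcon, Finset.sum_empty] at hW0
        exact lt_irrefl _ hW0
      obtain ⟨y, -, hy⟩ := Finset.exists_max_image _ f hTne
      refine ⟨y, ?_⟩
      have hP0 : ∀ z ∈ Fintype.piFinset (fun _ : Fin n => T), 0 ≤ ∏ i, w (z i) := by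
        intro z hz
        rw [Fintype.mem_piFinset] at hz
        exact Finset.prod_nonneg fun i _ => hw _ (hz i)
      have hsum1 : ∑ z ∈ Fintype.piFinset (fun _ : Fin n => T), ∏ i, w (z i) = W ^ n := by
        rw [← Finset.prod_univ_sum, Finset.prod_const, Finset.card_univ, Fintype.card_fin]
      have hkey : (A.card : ℝ) ≤ ∑ z ∈ Fintype.piFinset (fun _ : Fin n => T),
          (∏ i, w (z i)) * (f z : ℝ) := by
        have e1 : ∀ z, (f z : ℝ) = ∑ s ∈ A,
            if (∀ i, z i ∈ ((s i : F) : Finset (EuclideanSpace ℝ (Fin d)))) then (1 : ℝ)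
              else 0 := by
          intro z
          simp only [f, Finset.card_filter]
          push_cast
          rfl
        simp_rw [e1, Finset.mul_sum]
        rw [Finset.sum_comm]
        have e2 : ∀ s ∈ A, (1 : ℝ) ≤ ∑ z ∈ Fintype.piFinset (fun _ : Fin n => T),
            (∏ i, w (z i)) * (if (∀ i, z i ∈ ((s i : F) : Finset (EuclideanSpace ℝ (Fin d))))
              then (1 : ℝ) else 0) := by
          intro s _
          have hsT : ∀ i, ((s i : F) : Finset (EuclideanSpace ℝ (Fin d))) ⊆ T := fun i =>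
            Finset.mem_powerset.mp (Finset.mem_filter.mp (s i).2).1
          have hs1 : ∀ i, 1 ≤ ∑ t ∈ ((s i : F) : Finset (EuclideanSpace ℝ (Fin d))), w t :=
            fun i => (Finset.mem_filter.mp (s i).2).2
          have e3 : ∑ z ∈ Fintype.piFinset (fun _ : Fin n => T),
              (∏ i, w (z i)) * (if (∀ i, z i ∈ ((s i : F) : Finset (EuclideanSpace ℝ (Fin d))))
                then (1 : ℝ) else 0)
              = ∑ z ∈ Fintype.piFinset (fun i : Fin n =>
                ((s i : F) : Finset (EuclideanSpace ℝ (Fin d)))), ∏ i, w (z i) := by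
            rw [← Finset.sum_subset (s₁ := Fintype.piFinset (fun i : Fin n =>
                ((s i : F) : Finset (EuclideanSpace ℝ (Fin d)))))
                (s₂ := Fintype.piFinset (fun _ : Fin n => T))]
            · refine Finset.sum_congr rfl fun z hz => ?_
              rw [Fintype.mem_piFinset] at hz
              rw [if_pos hz, mul_one]
            · exact Fintype.piFinset_subset _ _ hsT
            · intro z _ hz
              rw [Fintype.mem_piFinset] at hz
              rw [if_neg hz, mul_zero]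
          rw [e3, ← Finset.prod_univ_sum]
          calc (1 : ℝ) = ∏ _i : Fin n, (1 : ℝ) := by simp
            _ ≤ _ := Finset.prod_le_prod (fun _ _ => zero_le_one) fun i _ => hs1 i
        calc (A.card : ℝ) = ∑ _s ∈ A, (1 : ℝ) := by simp
          _ ≤ _ := Finset.sum_le_sum e2
      have h2 : ∑ z ∈ Fintype.piFinset (fun _ : Fin n => T), (∏ i, w (z i)) * (f z : ℝ)
          ≤ W ^ n * (f y : ℝ) := by
        rw [← hsum1, Finset.sum_mul]
        refine Finset.sum_le_sum fun z hz => ?_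
        exact mul_le_mul_of_nonneg_left (by exact_mod_cast hy z hz) (hP0 z hz)
      have h3 := hkey.trans h2
      have h4 : (1 / W) ^ n * (A.card : ℝ) ≤ (f y : ℝ) := by
        rw [one_div, inv_pow, inv_mul_le_iff₀ (by positivity)]
        exact h3
      refine h4.trans (le_of_eq ?_)
      simp only [f]
      congr!)
    ((F.card : ℝ) ^ n) (by
      rw [Fintype.card_fun, Fintype.card_coe, Fintype.card_fin]
      push_cast
      exact le_rfl) (one_le_pow₀ hF1)
  refine ⟨Y, ?_, ?_⟩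
  · intro x hx
    obtain ⟨y, hyY, hy⟩ := hY (fun i => ⟨_, htype (x i) (hx i)⟩)
    rw [Set.mem_iUnion₂]
    refine ⟨y, hyY, x - y, ?_, by simp⟩
    rw [interior_power]
    intro i _
    exact (Finset.mem_filter.mp (hy i)).2
  · refine hYc.trans (le_of_eq ?_)
    rw [Real.log_pow, one_div, inv_pow, div_inv_eq_mul]
    ring

/-- Lower bound for the powers. -/
theorem pow_lower {K : Set (EuclideanSpace ℝ (Fin d))} (hKc : IsCompact K)
    (hKi : (interior K).Nonempty) {M : ℝ} (hM : 0 < M) (hMle : ∀ W ∈ openCov K, M ≤ W) (n : ℕ)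
    (Y : Finset (Fin n → EuclideanSpace ℝ (Fin d)))
    (hY : power K n ⊆ ⋃ t ∈ Y, (fun x => t + x) '' interior (power K n)) :
    M ^ n ≤ Y.card := by
  classical
  obtain ⟨μ, hμ, hμK, hμt⟩ := Pool.Agent.H2R2.Frac.exists_measure K hKc hKi M hM
    (fun T w hw hcov => hMle _ ⟨T, w, hw, rfl, hcov⟩)
  have hK1 : μ K = 1 := by
    rw [← prob_compl_eq_zero_iff hKc.isClosed.measurableSet]
    exact hμK
  let ν : Measure (Fin n → EuclideanSpace ℝ (Fin d)) := Measure.pi (fun _ => μ)
  have hν1 : ν (power K n) = 1 := by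
    rw [power_eq_pi, Measure.pi_pi]
    simp [hK1]
  have hνt : ∀ t : Fin n → EuclideanSpace ℝ (Fin d),
      ν ((fun x => t + x) '' interior (power K n)) ≤ ENNReal.ofReal (1 / M) ^ n := by
    intro t
    have hsub : (fun x => t + x) '' interior (power K n) ⊆
        Set.pi Set.univ (fun i => {x | x - t i ∈ interior K}) := by
      rintro _ ⟨x, hx, rfl⟩ i _
      rw [interior_power] at hx
      simpa using hx i (Set.mem_univ i)
    refine (measure_mono hsub).trans ?_
    rw [Measure.pi_pi]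
    calc ∏ i, μ {x | x - t i ∈ interior K} ≤ ∏ _i : Fin n, ENNReal.ofReal (1 / M) :=
          Finset.prod_le_prod' fun i _ => hμt (t i)
      _ = ENNReal.ofReal (1 / M) ^ n := by simp
  have h1 : (1 : ENNReal) ≤ Y.card * ENNReal.ofReal (1 / M) ^ n := by
    calc (1 : ENNReal) = ν (power K n) := hν1.symm
      _ ≤ ν (⋃ t ∈ Y, (fun x => t + x) '' interior (power K n)) := measure_mono hY
      _ ≤ ∑ t ∈ Y, ν ((fun x => t + x) '' interior (power K n)) := measure_biUnion_finset_le _ _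
      _ ≤ ∑ _t ∈ Y, ENNReal.ofReal (1 / M) ^ n := Finset.sum_le_sum fun t _ => hνt t
      _ = Y.card * ENNReal.ofReal (1 / M) ^ n := by simp
  have h2 : (1 : ℝ) ≤ Y.card * (1 / M) ^ n := by
    have h3 : ((Y.card : ENNReal) * ENNReal.ofReal (1 / M) ^ n) =
        ENNReal.ofReal (Y.card * (1 / M) ^ n) := by
      rw [ENNReal.ofReal_mul (by positivity), ENNReal.ofReal_pow (by positivity)]
      simp
    rw [h3, ← ENNReal.ofReal_one] at h1
    exact (ENNReal.ofReal_le_ofReal_iff (by positivity)).mp h1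
  rw [one_div, inv_pow, ← div_eq_mul_inv, le_div_iff₀ (by positivity), one_mul] at h2
  exact h2

/-- `(1 + C n W ^ n) / b ^ n → 0` for `W < b`, `1 < b`. -/
theorem aux_tendsto (C W b : ℝ) (hW : 0 ≤ W) (hWb : W < b) (hb : 1 < b) :
    Tendsto (fun n : ℕ => (1 + C * n * W ^ n) / b ^ n) atTop (𝓝 0) := by
  have hb0 : 0 < b := by linarith
  have h1 : Tendsto (fun n : ℕ => (1 / b) ^ n) atTop (𝓝 0) :=
    tendsto_pow_atTop_nhds_zero_of_lt_one (by positivity) (by rw [div_lt_one hb0]; exact hb)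
  have h2 : Tendsto (fun n : ℕ => (n : ℝ) * (W / b) ^ n) atTop (𝓝 0) :=
    tendsto_self_mul_const_pow_of_lt_one (by positivity) (by rw [div_lt_one hb0]; exact hWb)
  have h3 := h1.add (h2.const_mul C)
  rw [mul_zero, add_zero] at h3
  refine h3.congr fun n => ?_
  rw [div_pow, div_pow, one_pow]
  field_simp

/-- The least number of translates is attained. -/
theorem covNum_spec {E : Type*} [AddCommGroup E] [TopologicalSpace E] (K : Set E)
    (h : ∃ T : Finset E, K ⊆ ⋃ t ∈ T, (fun x => t + x) '' interior K) :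
    ∃ T : Finset E, T.card = covNum K ∧ K ⊆ ⋃ t ∈ T, (fun x => t + x) '' interior K := by
  obtain ⟨T, hT⟩ := h
  exact Nat.sInf_mem (s := {k : ℕ | ∃ T : Finset E, T.card = k ∧
    K ⊆ ⋃ t ∈ T, (fun x => t + x) '' interior K}) ⟨T.card, T, rfl, hT⟩

theorem covNum_le {E : Type*} [AddCommGroup E] [TopologicalSpace E] (K : Set E) (T : Finset E)
    (hT : K ⊆ ⋃ t ∈ T, (fun x => t + x) '' interior K) : covNum K ≤ T.card :=
  Nat.sInf_le ⟨T, rfl, hT⟩

/-- The limit of `c(Kⁿ)^(1/n)`. -/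
theorem limit {K : Set (EuclideanSpace ℝ (Fin d))} (hKc : IsCompact K)
    (hKi : (interior K).Nonempty) (hne : (openCov K).Nonempty) :
    Tendsto (fun n : ℕ => (covNum (power K n) : ℝ) ^ ((n : ℝ)⁻¹)) atTop
      (𝓝 (sInf (openCov K))) := by
  have hKne : K.Nonempty := hKi.mono interior_subset
  have hbdd : BddBelow (openCov K) := ⟨1, fun _ h => openCov_one_le hKne h⟩
  have hM1 : 1 ≤ sInf (openCov K) := le_csInf hne fun _ h => openCov_one_le hKne h
  set M := sInf (openCov K) with hM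
  have hM0 : 0 < M := by linarith
  rw [tendsto_order]
  constructor
  · intro a ha
    filter_upwards [eventually_ge_atTop 1] with n hn
    obtain ⟨W, hW⟩ := hne
    obtain ⟨C, -, hC⟩ := pow_cover hKne hW
    obtain ⟨Y, hY, -⟩ := hC n
    obtain ⟨T, hT, hT'⟩ := covNum_spec (power K n) ⟨Y, hY⟩
    have h1 : M ^ n ≤ (covNum (power K n) : ℝ) := by
      rw [← hT]
      exact pow_lower hKc hKi hM0 (fun W hW => csInf_le hbdd hW) n T hT'
    refine ha.trans_le ?_
    calc M = (M ^ n) ^ ((n : ℝ)⁻¹) := by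
          rw [Real.pow_rpow_inv_natCast hM0.le (by omega)]
      _ ≤ _ := Real.rpow_le_rpow (by positivity) h1 (by positivity)
  · intro b hb
    obtain ⟨b', hb1, hb2⟩ := exists_between hb
    obtain ⟨W, hW, hWb⟩ := exists_lt_of_csInf_lt hne hb1
    obtain ⟨C, hC0, hC⟩ := pow_cover hKne hW
    have hW1 := openCov_one_le hKne hW
    have hlim := aux_tendsto C W b' (by linarith) hWb (by linarith)
    filter_upwards [hlim.eventually (gt_mem_nhds one_pos), eventually_ge_atTop 1] with n h1 hn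
    obtain ⟨Y, hY, hYc⟩ := hC n
    have hb'0 : 0 < b' := by linarith
    rw [div_lt_one (by positivity)] at h1
    have h2 : (covNum (power K n) : ℝ) ≤ b' ^ n :=
      (Nat.cast_le.mpr (covNum_le _ Y hY)).trans (hYc.trans h1.le)
    calc (covNum (power K n) : ℝ) ^ ((n : ℝ)⁻¹) ≤ (b' ^ n) ^ ((n : ℝ)⁻¹) :=
          Real.rpow_le_rpow (by positivity) h2 (by positivity)
      _ = b' := Real.pow_rpow_inv_natCast hb'0.le (by omega)
      _ < b := hb2

/-- Products. -/
theorem prod_cover {E F : Type*} [AddCommGroup E] [TopologicalSpace E] [AddCommGroup F]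
    [TopologicalSpace F] (L : Set E) (P : Set F) (S : Finset E) (Y : Finset F)
    (hS : L ⊆ ⋃ t ∈ S, (fun x => t + x) '' interior L)
    (hY : P ⊆ ⋃ t ∈ Y, (fun x => t + x) '' interior P) :
    L ×ˢ P ⊆ ⋃ t ∈ S ×ˢ Y, (fun x => t + x) '' interior (L ×ˢ P) := by
  rintro ⟨x, y⟩ ⟨hx, hy⟩
  obtain ⟨s, hs, x', hx', rfl⟩ := Set.mem_iUnion₂.mp (hS hx)
  obtain ⟨t, ht, y', hy', rfl⟩ := Set.mem_iUnion₂.mp (hY hy)
  refine Set.mem_iUnion₂.mpr ⟨(s, t), Finset.mem_product.mpr ⟨hs, ht⟩, (x', y'), ?_, rfl⟩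
  rw [interior_prod_eq]
  exact ⟨hx', hy'⟩

/-- **Main theorem.** For every convex body `K` in `ℝ^d` the numbers `c(Kⁿ)^(1/n)` converge to their
infimum `M`, and `1 ≤ M ≤ 2^d`, with `M = 2^d` exactly for parallelotopes. If `K` is not a
parallelotope then, for some constant `C` depending on `K` only, every product `L × Kⁿ` with `L` a
convex body in `ℝ^m`, `m ≥ 2`, `n ≥ C log m`, is covered by fewer than `2^(m + dn)` translates of its
interior. -/
theorem result (d : ℕ) (hd : 1 ≤ d) (K : Set (EuclideanSpace ℝ (Fin d)))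
    (hK : Convex ℝ K) (hKc : IsCompact K) (hKi : (interior K).Nonempty) :
    (∃ M : ℝ, Tendsto (fun n : ℕ => (covNum (power K n) : ℝ) ^ ((n : ℝ)⁻¹)) atTop (𝓝 M) ∧
      1 ≤ M ∧ M ≤ 2 ^ d ∧ (M = 2 ^ d ↔ IsParallelotope K) ∧
      ∀ n : ℕ, M ^ n ≤ covNum (power K n)) ∧
    (¬ IsParallelotope K → ∃ C : ℝ, ∀ m : ℕ, 2 ≤ m → ∀ L : Set (EuclideanSpace ℝ (Fin m)),
      Convex ℝ L → IsCompact L → (interior L).Nonempty → ∀ n : ℕ, C * Real.log m ≤ n →
      ∃ T : Finset (EuclideanSpace ℝ (Fin m) × (Fin n → EuclideanSpace ℝ (Fin d))),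
        L ×ˢ power K n ⊆ ⋃ t ∈ T, (fun x => t + x) '' interior (L ×ˢ power K n) ∧
        T.card < 2 ^ (m + d * n)) := by
  classical
  have hKne : K.Nonempty := hKi.mono interior_subset
  obtain ⟨⟨T, w, hw, hsum, hcov⟩, heq⟩ := Pool.Agent.H2R2.Frac.primal d hd K hKc hK hKi
  have hne : (openCov K).Nonempty := ⟨_, T, w, hw, rfl, hcov⟩
  have hbdd : BddBelow (openCov K) := ⟨1, fun _ h => openCov_one_le hKne h⟩
  have hle : sInf (openCov K) ≤ 2 ^ d := (csInf_le hbdd ⟨T, w, hw, rfl, hcov⟩).trans hsum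
  have hiff : sInf (openCov K) = 2 ^ d ↔ IsParallelotope K := by
    unfold IsParallelotope
    rw [← heq]
    constructor
    · intro h T w hw hcov
      rw [← h]
      exact csInf_le hbdd ⟨T, w, hw, rfl, hcov⟩
    · intro h
      refine le_antisymm hle (le_csInf hne ?_)
      rintro W ⟨T, w, hw, rfl, hcov⟩
      exact h T w hw hcov
  have hM1 : 1 ≤ sInf (openCov K) := le_csInf hne fun _ h => openCov_one_le hKne h
  refine ⟨⟨sInf (openCov K), limit hKc hKi hne, hM1, hle, hiff, fun n => ?_⟩, fun hnp => ?_⟩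
  · obtain ⟨W, hW⟩ := hne
    obtain ⟨C, -, hC⟩ := pow_cover hKne hW
    obtain ⟨Y, hY, -⟩ := hC n
    obtain ⟨T, hT, hT'⟩ := covNum_spec (power K n) ⟨Y, hY⟩
    rw [← hT]
    exact pow_lower hKc hKi (by linarith) (fun W hW => csInf_le hbdd hW) n T hT'
  have hlt : sInf (openCov K) < 2 ^ d := lt_of_le_of_ne hle fun h => hnp (hiff.mp h)
  obtain ⟨W, hW, hW2⟩ := exists_lt_of_csInf_lt hne hlt
  obtain ⟨b, hb1, hb2⟩ := exists_between hW2
  have hW1 := openCov_one_le hKne hW
  have hb0 : 0 < b := by linarith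
  obtain ⟨C, hC0, hC⟩ := pow_cover hKne hW
  -- a uniform constant
  obtain ⟨D, hD1, hD⟩ : ∃ D : ℝ, 1 ≤ D ∧ ∀ n : ℕ, 1 + C * n * W ^ n ≤ D * b ^ n := by
    obtain ⟨D, hD⟩ := (aux_tendsto C W b (by linarith) hb1 (by linarith)).bddAbove_range
    refine ⟨max 1 D, le_max_left _ _, fun n => ?_⟩
    have h1 : (1 + C * n * W ^ n) / b ^ n ≤ D := hD ⟨n, rfl⟩
    rw [div_le_iff₀ (by positivity)] at h1
    exact h1.trans (by gcongr; exact le_max_right _ _)
  set q : ℝ := 2 ^ d / b with hq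
  have hq1 : 1 < q := by rw [hq, one_lt_div hb0]; exact hb2
  have hlq : 0 < Real.log q := Real.log_pos hq1
  set g : ℝ := Real.log (100 * D) / Real.log 2 with hg
  have hl2 : 0 < Real.log 2 := Real.log_pos (by norm_num)
  refine ⟨(3 + g) / Real.log q, fun m hm L hL hLc hLi n hn => ?_⟩
  obtain ⟨S, hS, hSc⟩ := Pool.Agent.Results.MP_eba1ef_gt.AllConvexBodies.result m hm L hL hLc hLi
  obtain ⟨Y, hY, hYc⟩ := hC n
  refine ⟨S ×ˢ Y, prod_cover L (power K n) S Y hS hY, ?_⟩
  have hm2 : (2 : ℝ) ≤ m := by exact_mod_cast hm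
  have hm0 : (0 : ℝ) < m := by linarith
  -- `q ^ n ≥ 100 D m ^ 3`
  have hqn : 100 * D * (m : ℝ) ^ 3 ≤ q ^ n := by
    rw [← Real.log_le_log_iff (by positivity) (by positivity), Real.log_pow,
      Real.log_mul (by positivity) (by positivity), Real.log_pow]
    have h1 : (3 + g) * Real.log m ≤ n * Real.log q := by
      have := mul_le_mul_of_nonneg_right hn hlq.le
      rwa [div_mul_eq_mul_div, div_mul_cancel₀ _ hlq.ne'] at this
    have h2 : Real.log (100 * D) ≤ g * Real.log m := by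
      have h3 : Real.log 2 ≤ Real.log m := Real.log_le_log (by norm_num) hm2
      have h4 : 0 ≤ Real.log (100 * D) := Real.log_nonneg (by nlinarith)
      have h5 : 0 ≤ g := div_nonneg h4 hl2.le
      calc Real.log (100 * D) = g * Real.log 2 := by rw [hg, div_mul_cancel₀ _ hl2.ne']
        _ ≤ g * Real.log m := mul_le_mul_of_nonneg_left h3 h5
    push_cast
    linarith
  have hlogm : Real.log (2 * (m : ℝ) ^ 2 + 2 * m + 1) ≤ 4 * (m : ℝ) ^ 2 := by
    have h1 := Real.log_le_sub_one_of_pos (show (0 : ℝ) < 2 * (m : ℝ) ^ 2 + 2 * m + 1 by positivity)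
    nlinarith
  have hcardS : (S.card : ℝ) ≤ 12 * (m : ℝ) ^ 3 * 2 ^ m := by
    refine hSc.trans ?_
    have : (m : ℝ) * Real.log (2 * (m : ℝ) ^ 2 + 2 * m + 1) ≤ m * (4 * (m : ℝ) ^ 2) :=
      mul_le_mul_of_nonneg_left hlogm hm0.le
    calc 3 * 2 ^ m * ((m : ℝ) * Real.log (2 * (m : ℝ) ^ 2 + 2 * m + 1))
        ≤ 3 * 2 ^ m * (m * (4 * (m : ℝ) ^ 2)) := by gcongr
      _ = 12 * (m : ℝ) ^ 3 * 2 ^ m := by ring
  have hcardY : (Y.card : ℝ) ≤ D * b ^ n := hYc.trans (hD n)
  have hfinal : ((S ×ˢ Y).card : ℝ) < ((2 ^ (m + d * n) : ℕ) : ℝ) := by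
    rw [Finset.card_product]
    push_cast
    have hbn : 0 < b ^ n := by positivity
    have e1 : q ^ n * b ^ n = 2 ^ (d * n) := by
      rw [← mul_pow, hq, div_mul_cancel₀ _ hb0.ne', ← pow_mul]
    calc (S.card : ℝ) * Y.card ≤ (12 * (m : ℝ) ^ 3 * 2 ^ m) * (D * b ^ n) := by gcongr
      _ = (12 * D * (m : ℝ) ^ 3) * b ^ n * 2 ^ m := by ring
      _ < (100 * D * (m : ℝ) ^ 3) * b ^ n * 2 ^ m := by
          have : 0 < D * (m : ℝ) ^ 3 := by positivity
          have h1 : 12 * D * (m : ℝ) ^ 3 < 100 * D * (m : ℝ) ^ 3 := by nlinarith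
          gcongr
      _ ≤ q ^ n * b ^ n * 2 ^ m := by gcongr
      _ = 2 ^ (m + d * n) := by rw [e1, pow_add]; ring
  exact_mod_cast hfinal

end Pool.Agent.Results.MP_eba1ef_gt.PowersAndProducts
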