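import Mathlib
import Pool.Agent.H765R3.Had.Inv
import Pool.Agent.Results.MP_eba1ef_gt.AllConvexBodies

set_option autoImplicit false

/-!
# MP_eba1ef_gt: unconditional sums

Let `L i` be a convex body in `ℝ^(m i)` with `0` in its interior, with gauge `g i`, and let `K` be a
convex body in `ℝ^k × ℝ^(m 1) × ... × ℝ^(m r)` such that it only depends on
`x, g 1 (y 1), ..., g r (y r)` whether `(x, y)` belongs to `K`. Let `B` be the section of `K` by
`ℝ^k`. Then `c(K) ≤ c(B) * ∏ (c(L i) + 1)`, and `c(K) ≤ ∏ (c(L i) + 1) - 1` when `k = 0`.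

The proof. `K` contains with `(x, y)` all `(x, y')` with `g i (y' i) ≤ g i (y i)`. Let
`(x, y)` be a point of `K`. Take `b` in a finite set such that `x - b` belongs to `int B`. If
`y i ≠ 0` take `t i` in a finite set such that `y i / g i (y i) - t i` belongs to
`int (L i)`, and `w i = R i • t i`, where `R i` is a large constant; if `y i = 0` take `w i = 0`.
Then `g i (y i - ε w i) ≤ (1 - ε) g i (y i)` for all small `ε > 0`. As
`(1 - ε) (x, y) + ε (x - b, 0)` belongs to the interior of `K`, so does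
`(x, y) - ε (b, w)`; the cases `y i = 0` need a small extra argument. Therefore `K` is
illuminated by `c(B) * ∏ (c(L i) + 1)` directions.
-/

namespace Pool.Agent.Results.MP_eba1ef_gt.UnconditionalSums

open Set Pool.Agent.H765R3.Had

/-- `Covered N K` means that `K` is covered by at most `N` translates of its interior, i.e.
`c(K) ≤ N`. -/
def Covered {V : Type*} [TopologicalSpace V] [Add V] (N : ℕ) (K : Set V) : Prop :=
  ∃ T : Finset V, T.card ≤ N ∧ K ⊆ ⋃ t ∈ T, (fun x => t + x) '' interior K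

/-- **Main theorem.** -/
theorem result (k r : ℕ) (m : Fin r → ℕ) (hm : ∀ i, 1 ≤ m i)
    (L : ∀ i, Set (EuclideanSpace ℝ (Fin (m i)))) (hL : ∀ i, Convex ℝ (L i))
    (hLc : ∀ i, IsCompact (L i)) (hL0 : ∀ i, 0 ∈ interior (L i))
    (K : Set (EuclideanSpace ℝ (Fin k) × (∀ i, EuclideanSpace ℝ (Fin (m i)))))
    (hK : Convex ℝ K) (hKc : IsCompact K) (hKi : (interior K).Nonempty)
    (hinv : ∀ x y y', (x, y) ∈ K → (∀ i, gauge (L i) (y' i) = gauge (L i) (y i)) →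
      (x, y') ∈ K) :
    (∀ (N₀ : ℕ) (N : Fin r → ℕ), Covered N₀ {x | (x, 0) ∈ K} → (∀ i, Covered (N i) (L i)) →
      Covered (N₀ * ∏ i, (N i + 1)) K ∧
      (k = 0 → 0 < r → Covered (∏ i, (N i + 1) - 1) K)) ∧
    ((∀ i, L i = Metric.closedBall 0 1) →
      (k ≤ 1 ∧ ∏ i, (m i + 2) ≤ 2 ^ ∑ i, m i) ∨
      (2 ≤ k ∧ 3 * k * Real.log (2 * k ^ 2 + 2 * k + 1) * ∏ i, ((m i : ℝ) + 2) ≤
        2 ^ ∑ i, m i) →
      Covered (2 ^ (k + ∑ i, m i)) K) := by
  classical
  have hnt : ∀ i, Nontrivial (EuclideanSpace ℝ (Fin (m i))) := fun i => by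
    have : Nonempty (Fin (m i)) := ⟨⟨0, hm i⟩⟩
    infer_instance
  have hmono := mono_of_inv hL hLc hL0 hK hinv
  have main : ∀ (N₀ : ℕ) (N : Fin r → ℕ), Covered N₀ {x | (x, 0) ∈ K} →
      (∀ i, Covered (N i) (L i)) → Covered (N₀ * ∏ i, (N i + 1)) K ∧
      (k = 0 → 0 < r → Covered (∏ i, (N i + 1) - 1) K) := by
    rintro N₀ N ⟨T₀, hT₀, hB⟩ hN
    choose T hT hTL using hN
    constructor
    · obtain ⟨S, hS, hS'⟩ := cover hL hLc hL0 hK hKc hKi hmono T₀ hB T hTL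
      refine ⟨S, hS.trans ?_, hS'⟩
      exact Nat.mul_le_mul hT₀ (Finset.prod_le_prod' fun i _ => Nat.succ_le_succ (hT i))
    · rintro rfl hr
      have : Nonempty (Fin r) := ⟨⟨0, hr⟩⟩
      obtain ⟨S, hS, hS'⟩ := cover' hL hLc hL0 hK hKc hKi hmono T hTL
      refine ⟨S, hS.trans ?_, hS'⟩
      exact Nat.sub_le_sub_right
        (Finset.prod_le_prod' fun i _ => Nat.succ_le_succ (hT i)) 1
  refine ⟨main, fun hball hcase => ?_⟩
  have hballs : ∀ i, Covered (m i + 1) (L i) := fun i => by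
    rw [hball i]
    exact ball_cover (m i)
  obtain ⟨hBc, hBk, hBi⟩ := section_body hL hLc hL0 hK hKc hKi hmono
  rcases hcase with ⟨hk, hprod⟩ | ⟨hk, hprod⟩
  · obtain ⟨S, hS, hS'⟩ := (main (2 ^ k) (fun i => m i + 1) (line_cover k hk _ hBc hBk hBi)
      hballs).1
    refine ⟨S, hS.trans ?_, hS'⟩
    rw [pow_add]
    exact Nat.mul_le_mul_left _ hprod
  · obtain ⟨T₀, hT₀, hcard⟩ := AllConvexBodies.result k hk _ hBc hBk hBi
    obtain ⟨S, hS, hS'⟩ := (main T₀.card (fun i => m i + 1) ⟨T₀, le_rfl, hT₀⟩ hballs).1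
    refine ⟨S, ?_, hS'⟩
    have h1 : (S.card : ℝ) ≤ T₀.card * ∏ i, ((m i : ℝ) + 2) := by
      have h2 : (S.card : ℝ) ≤ ((T₀.card * ∏ i, (m i + 1 + 1) : ℕ) : ℝ) := by exact_mod_cast hS
      refine h2.trans (le_of_eq ?_)
      push_cast
      congr 1
      exact Finset.prod_congr rfl fun i _ => by ring
    have h3 : (0 : ℝ) ≤ ∏ i, ((m i : ℝ) + 2) := Finset.prod_nonneg fun i _ => by positivity
    have h4 : (S.card : ℝ) ≤ 2 ^ (k + ∑ i, m i) := by
      calc (S.card : ℝ) ≤ T₀.card * ∏ i, ((m i : ℝ) + 2) := h1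
        _ ≤ 3 * 2 ^ k * (k * Real.log (2 * k ^ 2 + 2 * k + 1)) * ∏ i, ((m i : ℝ) + 2) := by
          gcongr
        _ = 2 ^ k * (3 * k * Real.log (2 * k ^ 2 + 2 * k + 1) * ∏ i, ((m i : ℝ) + 2)) := by ring
        _ ≤ 2 ^ k * 2 ^ ∑ i, m i := by gcongr
        _ = 2 ^ (k + ∑ i, m i) := by rw [pow_add]
    exact_mod_cast h4

end Pool.Agent.Results.MP_eba1ef_gt.UnconditionalSums
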